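import Mathlib
import Pool.Agent.H93.Kz4

namespace Pool.Agent.Results.MP_23d2e1_gt.PolyUpper

universe u

/-- The subspace S of X has a map into l_2 of distortion at most D. -/
def EmbedsWith {X : Type u} [MetricSpace X] (S : Set X) (D : ℝ) : Prop :=
  ∃ (f : S → lp (fun _ : ℕ => ℝ) 2) (s : ℝ), 0 < s ∧ ∀ x y : S,
    s * dist (x : X) (y : X) ≤ ‖f x - f y‖ ∧ ‖f x - f y‖ ≤ s * D * dist (x : X) (y : X)

theorem result (k : ℕ) (X : Type u) [MetricSpace X] (A : Fin k → Set X)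
    (hcov : (⋃ i, A i) = Set.univ) (hA : ∀ i, EmbedsWith (A i) 1) :
    EmbedsWith (Set.univ : Set X) (1344000 * (k : ℝ) ^ 41) := by
  classical
  obtain ⟨G, hG⟩ := H93Kz.embed' A (g := 39) (H := fun _ => lp (fun _ : ℕ => ℝ) 2) (D := 1)
    le_rfl (by norm_num) hA
  have := H93Kz.l2_sep
  have : SecondCountableTopology (lp (fun _ : ℕ => ℝ) 2) :=
    UniformSpace.secondCountable_of_separable _
  obtain ⟨J⟩ := H93Kz.into_l2
    (PiLp 2 fun _ : {j // (A j).Nonempty} => WithLp 2 (lp (fun _ : ℕ => ℝ) 2 × ℝ))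
  rw [← hcov]
  refine ⟨fun x => J (G x), 1 / 2, by norm_num, fun x y => ?_⟩
  rw [← map_sub, J.norm_map]
  simpa using hG x y

end Pool.Agent.Results.MP_23d2e1_gt.PolyUpper
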